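import Pool.Agent.Helper47.FLG.Pde

/-!
# Project FLG, packet NRF
-/

set_option autoImplicit false

namespace Pool.Agent.Helper61.FLG

open Finset Pool.Agent.Helper47.RFn Pool.Agent.Helper47.FLG

/-- adding a nonnegative multiple of `Id4` keeps the cones -/
theorem Kc_add (hLI : Goal_LI) (hLN : Goal_LN) (hCL : Goal_CL) (hWQ : Goal_WQ) {n : ℕ} (hn : 2 ≤ n) {a b p β : ℝ}
    (ha : 0 ≤ a) (hb : 0 ≤ b) (hp : p ≤ 1) (hβ : 0 ≤ β) {R : T4 n} (hR : Kc a b p R) : Kc a b p (R + β • Id4 n) := by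
  obtain ⟨h1, h2, h3⟩ := hR
  obtain ⟨-, -, cI, cA, cS, -, -, cE, -⟩ := hCL n
  obtain ⟨-, -, -, -, -, -, lA, lS, lI, -⟩ := hLI n hn a b ha hb (Id4 n)
  have hcv : IsCurv (R + β • Id4 n) := cA _ _ h1 (cS _ _ cI)
  have hn1 : (1 : ℝ) ≤ (n : ℝ) - 1 := by
    have : (2 : ℝ) ≤ n := by exact_mod_cast hn
    linarith
  have hN : 0 < 1 + 2 * ((n : ℝ) - 1) * a := by
    have : 0 ≤ 2 * ((n : ℝ) - 1) * a := mul_nonneg (by linarith) ha
    linarith
  obtain ⟨c, hc⟩ : ∃ c, c = β * (1 / (1 + 2 * ((n : ℝ) - 1) * a)) := ⟨_, rfl⟩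
  have hc0 : 0 ≤ c := by
    rw [hc]
    exact mul_nonneg hβ (div_nonneg zero_le_one hN.le)
  have hel : elli a b (R + β • Id4 n) = elli a b R + c • Id4 n := by
    have e1 := (hLI n hn a b ha hb R).2.2.2.2.2.2.1 (β • Id4 n)
    rw [e1, lS, lI, smul_smul, ← hc]
  obtain ⟨q1, q2, q3, q4, q5, q6, -, -, q7, q8, -, q9, q10, q11⟩ := hLN n
  refine ⟨hcv, ⟨(cE a b _ hcv).2.1, fun z w => ?_⟩, fun v => ?_⟩
  · rw [hel, q1, q2]
    have e1 : 0 ≤ qf (Id4 n) z w := by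
      refine ((hWQ n 1 1 1 Matrix.isSymm_one (fun v => ?_) (fun v => ?_)) z w).1
      · rw [q11]
        linarith
      · rw [q11]
        linarith
    have e2 := h2.2 z w
    have e3 := mul_nonneg hc0 e1
    linarith
  · rw [hel, q3, q4, q5, q6, q7, q8 (by omega), q9, q10, q10, q11]
    have e1 := h3 v
    have e2 : 0 ≤ nrm v := Finset.sum_nonneg fun i _ => sq_nonneg _
    have e3 : 0 ≤ (1 - p) * (c * ((n : ℝ) - 1) * nrm v) :=
      mul_nonneg (by linarith) (mul_nonneg (mul_nonneg hc0 (by linarith)) e2)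
    nlinarith

end Pool.Agent.Helper61.FLG

namespace Pool.Agent.Helper47.FLG

open Finset Pool.Agent.Helper47.RFn Pool.Agent.Helper61.FLG

/-- PACKET NRF -/
theorem g_NRF (hCHN : G_CHN) (hFGS : G_FGS) (hINVF : G_INVF) (hLI : Goal_LI) (hLN : Goal_LN) (hEVG : G_EVG)
    (hCL : Goal_CL) (hWQ : Goal_WQ) : G_NRF := by
  intro n hn ε1 hε1 A1 hA1 ε hε
  obtain ⟨b0, hb0, hb1, hS⟩ := hFGS n hn ε1 hε1 1 one_pos
  obtain ⟨A, hA, hC⟩ := hCHN n hn b0 (max 1 A1) hb0 hb1 (le_max_left _ _) ε hε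
  refine ⟨A, hA, fun T F hF hRF hBd hlam hFG hQP => hC T F hF hRF hBd hlam fun z t ι hι => ?_⟩
  have ht : 0 < (t : ℝ) := t.2.1
  have hl : F.ev z t F.lam = lam (pull ι (F.rv z t)) :=
    (hEVG n (by omega) T F hF hRF 0 (fun a => map_zero _) z t ι hι).2.2.2.2.1
  have hr : FG (pull ι (F.rv z t)) := hFG z t ι hι
  have hl0 := hlam z t
  obtain ⟨hS1, hS2⟩ := hS _ hr
  have hB0 : 0 ≤ max 1 A1 / (t : ℝ) := div_nonneg (zero_le_one.trans (le_max_left _ _)) ht.le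
  have hn2 : (2 : ℝ) ≤ (n : ℝ) - 2 := by
    have : (4 : ℝ) ≤ n := by exact_mod_cast hn
    linarith
  have hμ : 0 ≤ ((n : ℝ) - 2) * b0 ^ 2 := by positivity
  by_cases h : A1 ≤ t * F.ev z t F.lam
  · refine Kc_add hLI hLN hCL hWQ (by omega) ?_ hb0.le ?_ hB0 (hS1 ?_)
    · unfold aF
      exact div_nonneg (by linarith) (by linarith)
    · unfold pF
      rw [div_le_one (by linarith)]
      linarith
    · intro z' w'
      have := hQP z t ι hι h z' w'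
      rwa [hl] at this
  · push Not at h
    refine hS2 _ ?_
    rw [← hl, one_mul, le_div_iff₀ ht, mul_comm]
    exact h.le.trans (le_max_right _ _)

end Pool.Agent.Helper47.FLG
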