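import Pool.Agent.Helper47.FLG.Pde

/-!
# Project FLG, packet ZET
-/

set_option autoImplicit false

namespace Pool.Agent.Helper61.FLG

open Finset Pool.Agent.Helper47.RFn Pool.Agent.Helper47.FLG

/-- derivative of an inverse -/
theorem der_inv {B : Type} [CommRing B] [Algebra ℝ B] (δ : Derivation ℝ B B) {f g : B} (h : f * g = 1) :
    δ g = -(g ^ 2 * δ f) := by
  have h1 : δ (f * g) = 0 := by rw [h]; exact δ.map_one_eq_zero
  rw [δ.leibniz, smul_eq_mul, smul_eq_mul] at h1
  have h2 : g * (f * δ g + g * δ f) = 0 := by rw [h1, mul_zero]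
  have h3 : g * (f * δ g + g * δ f) = (f * g) * δ g + g ^ 2 * δ f := by ring
  rw [h3, h, one_mul] at h2
  exact eq_neg_of_add_eq_zero_left h2

theorem gg_inv {n : ℕ} {T : ℝ} (F : FB n T) {f g : F.B} (h : f * g = 1) :
    F.gg f g = -(g ^ 2 * F.gg f f) ∧ F.gg g g = g ^ 4 * F.gg f f := by
  constructor
  · unfold FB.gg
    rw [Finset.mul_sum, ← Finset.sum_neg_distrib]
    refine Finset.sum_congr rfl fun a _ => ?_
    rw [der_inv (F.H a) h]
    ring
  · unfold FB.gg
    rw [Finset.mul_sum]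
    refine Finset.sum_congr rfl fun a _ => ?_
    rw [der_inv (F.H a) h]
    ring

theorem Hop_inv (hPRD : Goal_PRD) {n : ℕ} {T : ℝ} (F : FB n T) {f g : F.B} (h : f * g = 1) :
    F.Hop g = -(g ^ 2 * F.Hop f) - (2 : ℝ) • (g ^ 3 * F.gg f f) := by
  have hP := (hPRD n T F).1
  have h0 : F.Hop (1 : F.B) = 0 := by
    have := ((hP 1 1).2.2.2.1 1).2
    rwa [map_one] at this
  have h1 := (hP f g).1
  rw [h, h0, (gg_inv F h).1] at h1
  have h2 : g * (f * F.Hop g + g * F.Hop f - (2 : ℝ) • (-(g ^ 2 * F.gg f f))) = 0 := by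
    rw [← h1, mul_zero]
  have h3 : g * (f * F.Hop g + g * F.Hop f - (2 : ℝ) • (-(g ^ 2 * F.gg f f))) =
      (f * g) * F.Hop g + g ^ 2 * F.Hop f + (2 : ℝ) • (g ^ 3 * F.gg f f) := by
    rw [smul_neg, sub_neg_eq_add, mul_add, mul_smul_comm]
    ring_nf
  rw [h3, h, one_mul] at h2
  rw [← sub_eq_zero]
  rw [← h2]
  abel

/-- `|Ric|² = n λ² + |h|²` -/
theorem ric_sq (hPRD : Goal_PRD) {n : ℕ} (hn : 4 ≤ n) {T : ℝ} (F : FB n T) (hF : F.Full) (z : F.Z) (t : TI T) :
    F.ev z t (∑ a, ∑ b, F.Ric a b ^ 2) = n * F.ev z t F.lam ^ 2 + F.ev z t (hB F) := by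
  have hP := (hPRD n T F).2 hF.toBase
  obtain ⟨-, -, -, -, -, -, hsymm, -, hPP, htr⟩ := hP
  have hn0 : (n : ℝ) ≠ 0 := by
    have : 0 < n := by omega
    exact_mod_cast this.ne'
  -- `Ric ν = 0`
  have hnu : ∀ a, ∑ b, F.Ric a b * F.nu b = 0 := by
    intro a
    unfold FB.Ric
    simp_rw [Finset.sum_mul]
    rw [Finset.sum_comm]
    refine Finset.sum_eq_zero fun b _ => ?_
    have h1 := hF.nuR a b b
    have h2 : ∀ c, F.R a b c b * F.nu c = -(F.R a b b c * F.nu c) := by
      intro c
      rw [hF.R34 a b c b]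
      ring
    simp_rw [h2]
    rw [Finset.sum_neg_distrib, h1, neg_zero]
  -- `∑ Ric_ab P_ab = n λ`
  have h1 : F.ev z t (∑ a, ∑ b, F.Ric a b * F.P a b) = n * F.ev z t F.lam := by
    have e1 : (∑ a, ∑ b, F.Ric a b * F.P a b) = ∑ a, F.Ric a a := by
      have e2 : ∀ a, (∑ b, F.Ric a b * F.P a b) = F.Ric a a - F.nu a * ∑ b, F.Ric a b * F.nu b := by
        intro a
        unfold FB.P FB.dl
        rw [Finset.mul_sum]
        have e3 : ∀ b, F.Ric a b * ((if a = b then (1 : F.B) else 0) - F.nu a * F.nu b) =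
            (if a = b then F.Ric a b else 0) - F.nu a * (F.Ric a b * F.nu b) := by
          intro b
          split_ifs with hab
          · ring
          · ring
        simp_rw [e3]
        rw [Finset.sum_sub_distrib, Finset.sum_ite_eq Finset.univ a (fun b => F.Ric a b), if_pos (Finset.mem_univ a)]
      simp_rw [e2, hnu, mul_zero, sub_zero]
    rw [e1]
    unfold FB.lam
    rw [map_smul, smul_eq_mul]
    field_simp
  have h2 : F.ev z t (∑ a, ∑ b, F.P a b ^ 2) = n := by
    have e1 : (∑ a, ∑ b, F.P a b ^ 2) = ∑ a, F.P a a := by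
      refine Finset.sum_congr rfl fun a _ => ?_
      rw [← hPP a a]
      refine Finset.sum_congr rfl fun b _ => ?_
      rw [hsymm b a]
      ring
    rw [e1, htr]
    simp
  unfold hB FB.Ric0
  have e : (∑ a, ∑ b, (F.Ric a b - F.lam * F.P a b) ^ 2) = (∑ a, ∑ b, F.Ric a b ^ 2)
      - 2 * (F.lam * ∑ a, ∑ b, F.Ric a b * F.P a b) + F.lam ^ 2 * ∑ a, ∑ b, F.P a b ^ 2 := by
    simp_rw [Finset.mul_sum]
    rw [← Finset.sum_sub_distrib, ← Finset.sum_add_distrib]
    refine Finset.sum_congr rfl fun a _ => ?_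
    rw [← Finset.sum_sub_distrib, ← Finset.sum_add_distrib]
    refine Finset.sum_congr rfl fun b _ => ?_
    ring
  rw [e, map_add, map_sub, map_mul, map_mul, map_mul, map_pow, h1, h2]
  simp only [map_ofNat]
  ring

end Pool.Agent.Helper61.FLG

namespace Pool.Agent.Helper47.FLG

open Finset Pool.Agent.Helper47.RFn Pool.Agent.Helper61.FLG

/-- PACKET ZET -/
theorem g_ZET (hEVS : Goal_EVS) (hPRD : Goal_PRD) (hVIN : Goal_VIN) (hBIA : Goal_BIA) : G_ZET := by
  intro n hn T F hF hRF hlam τ hτ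
  have hBs := hF.toBase
  have hcd : ContDiffOn ℝ ((⊤ : ℕ∞) : WithTop ℕ∞) (fun x : ℝ => x⁻¹) (Set.Ioi 0) :=
    ContDiffOn.inv contDiffOn_id fun x hx => ne_of_gt hx
  obtain ⟨p1, hp1⟩ := hBs.comp (fun x => x⁻¹) (Set.Ioi 0) isOpen_Ioi hcd F.lam fun z t => hlam z t
  obtain ⟨p, hp⟩ : ∃ p : F.B, p = p1 + (2 : ℝ) • (F.tt + algebraMap ℝ F.B τ) := ⟨_, rfl⟩
  have hpe : ∀ z (t : TI T), F.ev z t p = 1 / F.ev z t F.lam + 2 * ((t : ℝ) + τ) := by
    intro z t
    rw [hp, map_add, map_smul, map_add, hp1, hBs.tt_ev, smul_eq_mul, AlgHom.commutes]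
    simp
  have hpp : ∀ z (t : TI T), 0 < F.ev z t p := by
    intro z t
    rw [hpe]
    have h1 := hlam z t
    have h2 : 0 < (t : ℝ) := t.2.1
    positivity
  refine ⟨?_, ?_⟩
  · obtain ⟨ze, hze⟩ := hBs.comp (fun x => x⁻¹) (Set.Ioi 0) isOpen_Ioi hcd p fun z t => hpp z t
    refine ⟨ze, fun z t => ?_⟩
    rw [hze, hpe, one_div, one_div]
  · intro ze hze
    have e1 : F.lam * p1 = 1 := hBs.ext _ _ fun z t => by
      rw [map_mul, hp1, map_one, mul_inv_cancel₀ (hlam z t).ne']
    have e2 : p * ze = 1 := hBs.ext _ _ fun z t => by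
      rw [map_mul, hze, map_one, ← hpe, one_div, mul_inv_cancel₀ (hpp z t).ne']
    have hPr := (hPRD n T F).1
    obtain ⟨hVl, -, -, -, -⟩ := hVIN n T F hF
    constructor
    · intro k l
      rw [der_inv (F.V k l) e2, hp, map_add, (F.V k l).map_smul, map_add, der_inv (F.V k l) e1, hVl k l, hBs.tt_V k l]
      simp
    · intro z t
      have hl := hlam z t
      have ht : 0 < (t : ℝ) := t.2.1
      have hH : ∀ a, F.H a p = F.H a p1 := by
        intro a
        rw [hp, map_add, (F.H a).map_smul, map_add, hBs.tt_H a]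
        simp
      have hgg : F.gg p p = F.gg p1 p1 := by
        unfold FB.gg
        simp_rw [hH]
      have hHop : F.Hop p = F.Hop p1 + (2 : ℝ) • (1 : F.B) := by
        have f1 : F.Hop F.tt = 1 := by
          unfold FB.Hop FB.Lap
          rw [hBs.tt_D]
          simp_rw [hBs.tt_H, map_zero]
          simp
        rw [hp, (hPr p1 _).2.1, ((hPr _ 1).2.2.2.1 2).1, (hPr F.tt _).2.1, f1, ((hPr 1 1).2.2.2.1 τ).2, add_zero]
      have k1 := congrArg (F.ev z t) (Hop_inv hPRD F e1)
      have k2 := congrArg (F.ev z t) (Hop_inv hPRD F e2)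
      have k3 := congrArg (F.ev z t) hHop
      have k4 := congrArg (F.ev z t) hgg
      have k5 := congrArg (F.ev z t) (gg_inv F e1).2
      have k6 := congrArg (F.ev z t) (gg_inv F e2).2
      have k7 := congrArg (F.ev z t) (hEVS n T F (by omega) hF hRF).1
      rw [map_smul, smul_eq_mul, ric_sq hPRD hn F hF z t] at k7
      simp only [map_sub, map_neg, map_mul, map_pow, map_smul, smul_eq_mul, map_add, map_one] at k1 k2 k3 k4 k5 k6
      have hq := hp1 z t
      obtain ⟨C, -, hC⟩ := hBIA n (by omega)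
      have hg0 := ((hC T F hF z t).2.2.2.2.2.2.2 F.lam).1
      have hh0 : 0 ≤ F.ev z t (hB F) := by
        unfold hB
        rw [map_sum]
        refine Finset.sum_nonneg fun a _ => ?_
        rw [map_sum]
        refine Finset.sum_nonneg fun b _ => ?_
        rw [map_pow]
        exact sq_nonneg _
      have hP := hpp z t
      have hPe := hpe z t
      have hZ : F.ev z t p * F.ev z t ze = 1 := by rw [← map_mul, e2, map_one]
      have hql : F.ev z t F.lam * F.ev z t p1 = 1 := by rw [← map_mul, e1, map_one]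
      generalize F.ev z t F.lam = l at *
      generalize F.ev z t p1 = q at *
      generalize F.ev z t p = P at *
      generalize F.ev z t ze = Z at *
      generalize F.ev z t (F.gg F.lam F.lam) = g at *
      generalize F.ev z t (hB F) = hh at *
      generalize F.ev z t (F.Hop F.lam) = A1 at *
      generalize F.ev z t (F.Hop p1) = A2 at *
      generalize F.ev z t (F.Hop p) = A3 at *
      generalize F.ev z t (F.Hop ze) = A4 at *
      generalize F.ev z t (F.gg p1 p1) = G1 at *
      generalize F.ev z t (F.gg p p) = G2 at *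
      generalize F.ev z t (F.gg ze ze) = G3 at *
      have hq0 : 0 < q := by
        by_contra hcon
        push Not at hcon
        nlinarith
      have hZ0 : 0 < Z := by
        by_contra hcon
        push Not at hcon
        nlinarith
      have hn0 : (0 : ℝ) < n := by
        have : 0 < n := by omega
        exact_mod_cast this
      have hq' : 1 / l = q := by
        rw [div_eq_iff hl.ne']
        linarith
      rw [hq'] at hPe
      have hw : Z * q ≤ 1 := by nlinarith
      have hw0 : 0 < Z * q := mul_pos hZ0 hq0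
      have hgl : g / l = q * g := by
        rw [div_eq_iff hl.ne']
        linear_combination (-g) * hql
      have hA4 : A4 = 2 / n * ((Z * q) ^ 2 * hh) + 2 * ((Z * q) ^ 2 * (q * g) * (1 - Z * q)) := by
        rw [k2, k4, k5, k3, k1, k7]
        have hnn : (2 : ℝ) / n * (n * l ^ 2 + hh) = 2 * l ^ 2 + 2 / n * hh := by
          field_simp
        rw [hnn]
        linear_combination (2 * Z ^ 2) * (l * q + 1) * hql
      have hw2 : (Z * q) ^ 2 ≤ 1 := by nlinarith
      have hqg : 0 ≤ q * g := mul_nonneg hq0.le hg0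
      refine ⟨hZ0, ?_, ?_, ?_, ?_, ?_⟩
      · nlinarith
      · rw [le_div_iff₀ (by positivity)]
        nlinarith
      · rw [hA4]
        have x1 : 0 ≤ 1 - Z * q := by linarith
        positivity
      · rw [hA4, hgl]
        have x1 : (Z * q) ^ 2 * hh ≤ hh := by nlinarith
        have x2 : 2 / n * ((Z * q) ^ 2 * hh) ≤ 2 / n * hh := mul_le_mul_of_nonneg_left x1 (by positivity)
        have x3 : (Z * q) ^ 2 * (q * g) ≤ q * g := by nlinarith
        have x4 : (Z * q) ^ 2 * (q * g) * (1 - Z * q) ≤ q * g := by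
          have x5 : 0 ≤ (Z * q) ^ 2 * (q * g) := by positivity
          nlinarith
        linarith
      · rw [k6, k4, k5, hgl]
        have x1 : Z ^ 4 * (q ^ 4 * g) = Z * (q * g) * ((Z * q) * (Z * q) ^ 2) := by ring
        rw [x1]
        have x2 : (Z * q) * (Z * q) ^ 2 ≤ 1 := by nlinarith
        have x3 : 0 ≤ Z * (q * g) := mul_nonneg hZ0.le hqg
        nlinarith

end Pool.Agent.Helper47.FLG
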