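import Pool.Agent.Helper47.FLG.Fun
import Pool.Agent.Helper79.RFn.DIA

/-!
# Project FLG, packet DIB: upper diameter bound from a distance bound at one time
-/

set_option autoImplicit false

namespace Pool.Agent.Helper47.FLG

open Finset Pool.Agent.Helper47.RFn Pool.Agent.Helper73.RFn

/-- PACKET DIB (proof as DIA of Helper79) -/
theorem p_DIB (hHeatEx : HeatExStmt) (hHEC : HecStmt) (hLIP : LipStmt) (hSMO : SmoStmt) (hFHM : FhmStmt)
    (hDBD : DbdStmt) : DibStmt := by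
  intro n C hn hC1
  obtain ⟨Bc, hBc, hHEC⟩ := hHEC n C C hn (by linarith) (by linarith)
  obtain ⟨hFrmF, hFloF⟩ := hFHM n
  have hn1 : 1 ≤ n := by omega
  have hn2 : 2 ≤ n := by omega
  set K := Real.sqrt Bc with hKdef
  have hK0 : 0 ≤ K := Real.sqrt_nonneg _
  have hK2 : K ^ 2 = Bc := Real.sq_sqrt hBc.le
  refine ⟨C + 4 * K, by linarith, ?_⟩
  intro T l0 τ A θ hl0 hτ hτT hF hbef hdis
  have hF1 : FFlow (Set.Icc 0 τ) A θ :=
    Pool.Agent.Helper79.RFn.DIA.fflow_mono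
      (fun t ht => show t ∈ Set.Ico 0 T from ⟨ht.1, ht.2.trans_lt hτT⟩) hF
  have hF2 : FFlow (Set.Ico 0 τ) A θ :=
    Pool.Agent.Helper79.RFn.DIA.fflow_mono (fun t ht => show t ∈ Set.Icc 0 τ from ⟨ht.1, ht.2.le⟩) hF1
  obtain ⟨hfrm, -, -, -, -, -, -, hgfam⟩ := hFloF (Set.Icc 0 τ) A θ hF1
  have hform : ∀ t ∈ Set.Icc 0 τ, ∀ f : EE n → ℝ, Sm f → ∀ x, ggf (A t) f f x =
      ∑ i, ∑ j, (gOf (θ t) x)⁻¹ i j * ed i f x * ed j f x := by
    intro t ht f hf x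
    obtain ⟨-, -, -, -, -, -, -, -, -, -, hg, -⟩ := hFrmF (A t) (θ t) (hfrm t ht)
    exact (hg f f hf hf).2 x
  have h0I : (0 : ℝ) ∈ Set.Icc 0 τ := Set.left_mem_Icc.2 hτ.le
  have hτI : τ ∈ Set.Icc 0 τ := Set.right_mem_Icc.2 hτ.le
  -- the main estimate for smooth functions
  have key : ∀ f : EE n → ℝ, Sm f →
      (∀ x, x ≠ 0 → ∑ i, ∑ j, (gOf (θ 0) x)⁻¹ i j * ed i f x * ed j f x ≤ 1) →
      ∀ x y : EE n, ‖x‖ = 1 → ‖y‖ = 1 → f x - f y ≤ (C + 4 * K) * Real.sqrt τ := by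
    intro f hf hgf x y hx hy
    obtain ⟨u, hu, hu0⟩ := hHeatEx n hn2 τ A θ hτ hF1 f hf
    have hu2 : HeatOn (Set.Ico 0 τ) A θ u :=
      Pool.Agent.Helper79.RFn.DIA.smFam1_mono
        (fun t ht => show t ∈ Set.Icc 0 τ from ⟨ht.1, ht.2.le⟩) hu
    have hH := hHEC τ l0 A θ u hτ hl0 hF2 (fun t ht0 ht1 x hx => hbef t ht0 ht1.le x hx) hu2
      (fun x hx => by
        rw [Pool.Agent.Helper79.RFn.DIA.ggf_congr hu0 hx, hform 0 h0I f hf x]; exact hgf x hx)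
    have hne : ∀ z : EE n, ‖z‖ = 1 → z ≠ 0 := by
      intro z hz h0; rw [h0] at hz; simp at hz
    -- time estimate
    have hder : ∀ z : EE n, z ≠ 0 → ∀ t ∈ Set.Icc 0 τ,
        HasDerivWithinAt (fun s => u s z) (Lapf (A t) (θ t) (u t) z) (Set.Icc 0 τ) t :=
      fun z hz t ht => hu.der [] z hz t ht
    have e1 : f x ≤ 2 * K * Real.sqrt τ + u τ x := by
      have := Pool.Agent.Helper79.RFn.DIA.diff_le (φ := fun s => u s x)
        (φ' := fun t => Lapf (A t) (θ t) (u t) x) hτ hK0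
        (hder x (hne x hx)) (fun t h1 h2 => by rw [hK2]; exact (hH t h1 h2 x (hne x hx)).2)
      simpa [hu0 x (hne x hx)] using this
    have e2 : -f y ≤ 2 * K * Real.sqrt τ + -u τ y := by
      have := Pool.Agent.Helper79.RFn.DIA.diff_le (φ := fun s => -u s y)
        (φ' := fun t => -Lapf (A t) (θ t) (u t) y) hτ hK0
        (fun t ht => (hder y (hne y hy) t ht).neg)
        (fun t h1 h2 => by rw [hK2, neg_sq]; exact (hH t h1 h2 y (hne y hy)).2)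
      simpa [hu0 y (hne y hy)] using this
    -- gradient at time `τ`
    have hgrad : ∀ z, z ≠ 0 → ∑ i, ∑ j, (gOf (θ τ) z)⁻¹ i j * ed i (u τ) z * ed j (u τ) z
        ≤ (1 : ℝ) ^ 2 := by
      intro z hz
      rw [one_pow, ← hform τ hτI (u τ) (hu.fam.sm τ hτI) z]
      have hcl : closure (Set.Ioo (0 : ℝ) τ) = Set.Icc 0 τ := closure_Ioo hτ.ne
      have hcont : ContinuousOn (fun t => ggf (A t) (u t) (u t) z) (Set.Icc 0 τ) := by
        have h1 := (hgfam u u hu.fam hu.fam).1.cont []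
        exact h1.comp (f := fun t : ℝ => (t, z)) (by fun_prop)
          (fun t ht => ⟨ht, hz⟩)
      refine le_on_closure (s := Set.Ioo (0 : ℝ) τ) (f := fun t => ggf (A t) (u t) (u t) z)
        (g := fun _ => (1 : ℝ)) (fun t ht => (hH t ht.1 ht.2 z hz).1) (by rw [hcl]; exact hcont)
        (by fun_prop) (x := τ) (by rw [hcl]; exact hτI)
    have e3 := hLIP n (gOf (θ τ)) (u τ) 1 hn1 (hFrmF (A τ) (θ τ) (hfrm τ hτI)).1
      (hu.fam.sm τ hτI) zero_le_one hgrad x y hx hy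
    have e4 := (abs_le.1 e3).2
    have e5 := hdis x y hx hy
    linarith
  -- conclusion
  have hm := (hFrmF (A 0) (θ 0) (hfrm 0 h0I)).1
  obtain ⟨-, -, -, -, -, hself, -, -, -⟩ := hDBD n (gOf (θ 0)) hn1 hm
  have hunit : ‖(EuclideanSpace.single (0 : Fin (n + 1)) (1 : ℝ) : EE n)‖ = 1 := by simp
  unfold gdiam
  refine csSup_le ⟨_, EuclideanSpace.single (0 : Fin (n + 1)) (1 : ℝ),
    EuclideanSpace.single (0 : Fin (n + 1)) (1 : ℝ), hunit, hunit, rfl⟩ ?_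
  rintro r ⟨x, y, hx, hy, rfl⟩
  refine le_of_forall_pos_le_add fun ε hε => ?_
  obtain ⟨f, hf, hgf, hfd⟩ := hSMO n (gOf (θ 0)) x (ε / 2) hn1 hm hx (by positivity)
  have h1 := key f hf hgf y x hy hx
  have h2 := abs_le.1 (hfd y hy)
  have h3 := abs_le.1 (hfd x hx)
  have h4 := hself x hx
  linarith [h2.1, h3.2]

end Pool.Agent.Helper47.FLG
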