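import Pool.Agent.Helper47.FLG.Fun

/-!
# Project FLG, packet VMO: the volume is nonincreasing
-/

set_option autoImplicit false

open MeasureTheory Set

namespace Pool.Agent.Helper47.FLG

open Pool.Agent.Helper47.RFn Pool.Agent.Helper73.RFn Pool.Agent.Helper64.RFn

/-- PACKET VMO (part of the proof of VLBn of Helper60) -/
theorem p_VMO (hDETn2 : DETn2) (hFHM : FhmStmt) (hC4 : Goal_C4) (hC6 : Goal_C6) : VmoStmt := by
  intro n T A θ hn hF hlam t ht0 htT
  obtain ⟨hFrmF, hFloF⟩ := hFHM n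
  obtain ⟨hfrm, -⟩ := hFloF (Set.Ico 0 T) A θ hF
  have hint : ∀ t, 0 ≤ t → t < T →
      IntegrableOn (fun x => Real.sqrt (gOf (θ t) x).det) (Metric.ball (0 : EE n) 1) := by
    intro t h h'
    exact (hC4 n).2.1 _ (hC6 n _ (hFrmF (A t) (θ t) (hfrm t ⟨h, h'⟩)).1).2.2.1
  have hpt : ∀ x : EE n, x ≠ 0 → Real.sqrt (gOf (θ t) x).det ≤ Real.sqrt (gOf (θ 0) x).det := by
    intro x hx
    have hder : ∀ r ∈ Set.Icc (0:ℝ) t, HasDerivWithinAt (fun r => Real.sqrt (gOf (θ r) x).det)
        (-(n : ℝ) * lamf (A r) (θ r) x * Real.sqrt (gOf (θ r) x).det) (Set.Ico 0 T) r := by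
      intro r hr
      exact (hDETn2 n (Set.Ico 0 T) A θ hn hF r ⟨hr.1, hr.2.trans_lt htT⟩ x hx).2
    have hanti : AntitoneOn (fun r => Real.sqrt (gOf (θ r) x).det) (Set.Icc 0 t) := by
      apply antitoneOn_of_deriv_nonpos (convex_Icc 0 t)
      · intro r hr
        exact ((hder r hr).continuousWithinAt).mono (fun y hy => ⟨hy.1, hy.2.trans_lt htT⟩)
      · intro r hr
        rw [interior_Icc] at hr
        exact ((hder r (Set.Ioo_subset_Icc_self hr)).hasDerivAt
          (Ico_mem_nhds hr.1 (hr.2.trans htT))).differentiableAt.differentiableWithinAt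
      · intro r hr
        rw [interior_Icc] at hr
        rw [((hder r (Set.Ioo_subset_Icc_self hr)).hasDerivAt (Ico_mem_nhds hr.1 (hr.2.trans htT))).deriv]
        have h3 := hlam r hr.1.le (hr.2.trans htT) x hx
        have h4 := Real.sqrt_nonneg (gOf (θ r) x).det
        have h5 := mul_nonneg (mul_nonneg (by positivity : (0:ℝ) ≤ n) h3) h4
        linarith
    exact hanti ⟨le_rfl, ht0⟩ ⟨ht0, le_rfl⟩ ht0
  unfold gvol integ
  refine mul_le_mul_of_nonneg_left ?_ (by positivity)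
  apply integral_mono_ae (hint t ht0 htT) (hint 0 le_rfl (ht0.trans_lt htT))
  have h2 : ∀ᵐ x : EE n ∂(volume.restrict (Metric.ball (0 : EE n) 1)), x ≠ 0 := by
    apply ae_restrict_of_ae
    exact Measure.ae_ne volume 0
  filter_upwards [h2] with x hx
  exact hpt x hx

end Pool.Agent.Helper47.FLG
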